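import Mathlib
import Pool.Agent.Q177.Sierpinski

/-!
# MP_671186_gt: common closure points in countable partitions with bounded pieces

The conjectured number `d + 1` is wrong for every `d ≥ 2`: for every `d ≥ 1` the largest `k` such
that every partition as in the question has a point in the closures of at least `k` members
is exactly `k = 2`.
-/

set_option autoImplicit false

namespace Pool.Agent.Results.MP_671186_gt.TwoClosures

open Set Topology

/-- The assertion of the question in dimension `d` with the number `k` in place of `d + 1`: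
for every partition `P` of `ℝ^d` (sup metric) all of whose members have strict pairwise bound `D`
and only countably many of whose members meet some cube `α + [0, D]^d`, there is a point which
lies in the closures of at least `k` members. -/
def Holds (d k : ℕ) : Prop :=
  ∀ (P : Set (Set (Fin d → ℝ))) (D : ℝ) (α : Fin d → ℝ), Setoid.IsPartition P → 0 < D →
    (∀ X ∈ P, ∀ x ∈ X, ∀ y ∈ X, dist x y < D) →
    {X ∈ P | (X ∩ Set.Icc α (fun i => α i + D)).Nonempty}.Countable →
    ∃ p : Fin d → ℝ, (k : ℕ∞) ≤ {X ∈ P | p ∈ closure X}.encard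

/-! ### The construction -/

/-- `0` at the integers, `1 / (fract t (1 - fract t))` elsewhere -/
noncomputable def w (t : ℝ) : ℝ := if ⌊t⌋ = ⌈t⌉ then 0 else ((t - ⌊t⌋) * (⌊t⌋ + 1 - t))⁻¹

lemma w_nonneg (t : ℝ) : 0 ≤ w t := by
  unfold w
  split_ifs
  · exact le_rfl
  · exact inv_nonneg.mpr (mul_nonneg (by linarith [Int.floor_le t])
      (by linarith [Int.lt_floor_add_one t]))

/-- the codes: floor and ceiling of all the coordinates and a natural-valued shell index -/
noncomputable def code {d : ℕ} (x : Fin d → ℝ) : (Fin d → ℤ × ℤ) × ℤ :=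
  (fun i => (⌊x i⌋, ⌈x i⌉), ⌊∑ i, w (x i)⌋)

/-- Closure of a fibre of `code`: the first component is constant on the closure, and the sum is
between the index and its successor. -/
lemma closure_fibre {d : ℕ} (k : (Fin d → ℤ × ℤ) × ℤ) (p : Fin d → ℝ)
    (hp : p ∈ closure {x | code x = k}) :
    (fun i => (⌊p i⌋, ⌈p i⌉)) = k.1 ∧ (k.2 : ℝ) ≤ ∑ i, w (p i) ∧ ∑ i, w (p i) ≤ k.2 + 1 := by
  obtain ⟨c, j⟩ := k
  -- the values of the floors and ceilings
  have hne : {x | code x = (c, j)}.Nonempty := by
    by_contra h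
    rw [Set.not_nonempty_iff_eq_empty] at h
    rw [h, closure_empty] at hp
    exact hp
  have hfib : ∀ x ∈ {x : Fin d → ℝ | code x = (c, j)}, (∀ i, ⌊x i⌋ = (c i).1 ∧ ⌈x i⌉ = (c i).2) ∧
      (j : ℝ) ≤ ∑ i, w (x i) ∧ ∑ i, w (x i) < j + 1 := by
    intro x hx
    have hx' : code x = (c, j) := hx
    unfold code at hx'
    rw [Prod.mk.injEq] at hx'
    obtain ⟨h1, h2⟩ := hx'
    refine ⟨fun i => ?_, ?_, ?_⟩
    · have := congrFun h1 i
      exact ⟨congrArg Prod.fst this, congrArg Prod.snd this⟩
    · rw [← h2]; exact Int.floor_le _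
    · rw [← h2]; exact Int.lt_floor_add_one _
  -- `j + 1` is positive
  have hj : (0 : ℝ) < j + 1 := by
    obtain ⟨x, hx⟩ := hne
    exact lt_of_le_of_lt (Finset.sum_nonneg fun i _ => w_nonneg _) (hfib x hx).2.2
  have hcoord : ∀ i, ⌊p i⌋ = (c i).1 ∧ ⌈p i⌉ = (c i).2 := by
    intro i
    by_cases hi : (c i).1 = (c i).2
    · -- the coordinate is constant and integral
      have : p i ∈ closure {((c i).1 : ℝ)} := by
        have h1 : (fun x : Fin d → ℝ => x i) p ∈ closure {((c i).1 : ℝ)} := by
          refine map_mem_closure (f := fun x : Fin d → ℝ => x i) (continuous_apply i) hp ?_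
          intro x hx
          obtain ⟨h1, h2⟩ := (hfib x hx).1 i
          have h3 := Int.floor_le (x i)
          have h4 := Int.le_ceil (x i)
          rw [h1] at h3
          rw [h2, ← hi] at h4
          exact le_antisymm h4 h3
        exact h1
      rw [closure_singleton] at this
      have h5 : p i = ((c i).1 : ℝ) := this
      rw [h5]
      exact ⟨Int.floor_intCast _, by rw [Int.ceil_intCast]; exact hi⟩
    · -- the coordinate stays away from the integers
      have h1 : (fun x : Fin d → ℝ => x i) p ∈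
          closure {t : ℝ | ((c i).1 : ℝ) ≤ t ∧ t ≤ (c i).1 + 1 ∧
            1 / ((j : ℝ) + 1) ≤ (t - (c i).1) * ((c i).1 + 1 - t)} := by
        refine map_mem_closure (f := fun x : Fin d → ℝ => x i) (continuous_apply i) hp ?_
        intro x hx
        obtain ⟨h1, h2⟩ := (hfib x hx).1 i
        have h3 := (hfib x hx).2.2
        have h4 := Int.floor_le (x i)
        have h5 := Int.lt_floor_add_one (x i)
        have h6 : w (x i) < j + 1 :=
          lt_of_le_of_lt (Finset.single_le_sum (f := fun i => w (x i))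
            (fun i _ => w_nonneg _) (Finset.mem_univ i)) h3
        have hne' : ⌊x i⌋ ≠ ⌈x i⌉ := by rw [h1, h2]; exact hi
        have h7 : (⌊x i⌋ : ℝ) ≠ x i := by
          intro h8
          apply hne'
          rw [← h8, Int.floor_intCast, Int.ceil_intCast]
        have h8 : (⌊x i⌋ : ℝ) < x i := lt_of_le_of_ne h4 h7
        unfold w at h6
        rw [if_neg hne', h1] at h6
        rw [h1] at h4 h5 h8
        refine ⟨h4, h5.le, ?_⟩
        have h9 : 0 < (x i - (c i).1) * ((c i).1 + 1 - x i) :=
          mul_pos (by linarith) (by linarith)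
        rw [div_le_iff₀ hj]
        have h10 := (inv_lt_iff_one_lt_mul₀ h9).mp h6
        linarith
      have hclosed : IsClosed {t : ℝ | ((c i).1 : ℝ) ≤ t ∧ t ≤ (c i).1 + 1 ∧
            1 / ((j : ℝ) + 1) ≤ (t - (c i).1) * ((c i).1 + 1 - t)} := by
        refine IsClosed.and (isClosed_le continuous_const continuous_id) (IsClosed.and
          (isClosed_le continuous_id continuous_const)
          (isClosed_le continuous_const (by fun_prop)))
      rw [hclosed.closure_eq] at h1
      obtain ⟨h2, h3, h4⟩ := h1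
      have h5 : 0 < 1 / ((j : ℝ) + 1) := by positivity
      have h6 : 0 < (p i - (c i).1) * ((c i).1 + 1 - p i) := lt_of_lt_of_le h5 h4
      have h2' : ((c i).1 : ℝ) ≤ p i := h2
      have h3' : p i ≤ (c i).1 + 1 := h3
      have h7 : ((c i).1 : ℝ) < p i := by
        rcases h2'.lt_or_eq with h | h
        · exact h
        · rw [← h] at h6; simp at h6
      have h8 : p i < (c i).1 + 1 := by
        rcases h3'.lt_or_eq with h | h
        · exact h
        · rw [h] at h6; simp at h6
      have h9 : (c i).2 = (c i).1 + 1 := by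
        obtain ⟨x, hx⟩ := hne
        obtain ⟨h1, h2⟩ := (hfib x hx).1 i
        have h10 := Int.ceil_le_floor_add_one (x i)
        have h11 := Int.floor_le_ceil (x i)
        rw [h1, h2] at h10 h11
        omega
      refine ⟨Int.floor_eq_iff.mpr ⟨h2', h8⟩, ?_⟩
      rw [h9, Int.ceil_eq_iff]
      push_cast
      constructor
      · linarith
      · linarith
  -- continuity of the sum on the face
  have hsum : (∑ i, w (p i)) = ∑ i, (if (c i).1 = (c i).2 then (0 : ℝ) else
      ((p i - (c i).1) * ((c i).1 + 1 - p i))⁻¹) := by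
    refine Finset.sum_congr rfl fun i _ => ?_
    unfold w
    rw [(hcoord i).1, (hcoord i).2]
  have hpos : ∀ i, (c i).1 ≠ (c i).2 → (p i - (c i).1) * ((c i).1 + 1 - p i) ≠ 0 := by
    intro i hi
    have h1 := Int.floor_le (p i)
    have h2 := Int.lt_floor_add_one (p i)
    have h3 : (⌊p i⌋ : ℝ) ≠ p i := by
      intro h8
      apply hi
      rw [← (hcoord i).1, ← (hcoord i).2, ← h8, Int.floor_intCast, Int.ceil_intCast]
    have h4 : (⌊p i⌋ : ℝ) < p i := lt_of_le_of_ne h1 h3
    rw [(hcoord i).1] at h2 h4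
    exact (mul_pos (by linarith) (by linarith)).ne'
  have hcont : ContinuousAt (fun x : Fin d → ℝ => ∑ i, (if (c i).1 = (c i).2 then (0 : ℝ) else
      ((x i - (c i).1) * ((c i).1 + 1 - x i))⁻¹)) p := by
    refine tendsto_finsetSum _ fun i _ => ?_
    by_cases hi : (c i).1 = (c i).2
    · simp only [if_pos hi]
      exact tendsto_const_nhds
    · simp only [if_neg hi]
      refine Filter.Tendsto.inv₀ ?_ (hpos i hi)
      have : Continuous (fun x : Fin d → ℝ => (x i - (c i).1) * ((c i).1 + 1 - x i)) := by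
        fun_prop
      exact this.tendsto p
  have hIcc : (∑ i, w (p i)) ∈ Set.Icc (j : ℝ) (j + 1) := by
    have h1 : (∑ i, (if (c i).1 = (c i).2 then (0 : ℝ) else
      ((p i - (c i).1) * ((c i).1 + 1 - p i))⁻¹)) ∈ closure (Set.Icc (j : ℝ) (j + 1)) := by
      refine hcont.continuousWithinAt.mem_closure hp ?_
      intro x hx
      have h2 : (∑ i, (if (c i).1 = (c i).2 then (0 : ℝ) else
          ((x i - (c i).1) * ((c i).1 + 1 - x i))⁻¹)) = ∑ i, w (x i) := by
        refine Finset.sum_congr rfl fun i _ => ?_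
        unfold w
        rw [((hfib x hx).1 i).1, ((hfib x hx).1 i).2]
      show (∑ i, (if (c i).1 = (c i).2 then (0 : ℝ) else
          ((x i - (c i).1) * ((c i).1 + 1 - x i))⁻¹)) ∈ Set.Icc (j : ℝ) (j + 1)
      rw [h2]
      exact ⟨(hfib x hx).2.1, (hfib x hx).2.2.le⟩
    rw [isClosed_Icc.closure_eq] at h1
    rw [hsum]
    exact h1
  refine ⟨?_, hIcc.1, hIcc.2⟩
  funext i
  exact Prod.ext (hcoord i).1 (hcoord i).2

/-- **The partition**: for every `d` and `D > 0` a countable partition of `ℝ^d` into sets of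
diameter less than `D`, each point in at most two closures. -/
theorem exists_partition (d : ℕ) (D : ℝ) (hD : 0 < D) :
    ∃ P : Set (Set (Fin d → ℝ)), Setoid.IsPartition P ∧ P.Countable ∧
      (∀ X ∈ P, ∀ x ∈ X, ∀ y ∈ X, dist x y < D) ∧
      ∀ p : Fin d → ℝ, {X ∈ P | p ∈ closure X}.encard ≤ 2 := by
  classical
  -- scaled code
  let s : (Fin d → ℝ) → (Fin d → ℝ) := fun x i => x i / (D / 2)
  have hs : Continuous s := by fun_prop
  let F : ((Fin d → ℤ × ℤ) × ℤ) → Set (Fin d → ℝ) := fun k => {x | code (s x) = k}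
  refine ⟨{X | X.Nonempty ∧ ∃ k, X = F k}, ⟨?_, ?_⟩, ?_, ?_, ?_⟩
  · rintro ⟨h, -⟩
    exact Set.not_nonempty_empty h
  · intro a
    refine ⟨F (code (s a)), ⟨⟨⟨a, rfl⟩, ⟨_, rfl⟩⟩, rfl⟩, ?_⟩
    rintro Y ⟨⟨-, k, rfl⟩, ha⟩
    have : code (s a) = k := ha
    rw [this]
  · have : {X : Set (Fin d → ℝ) | X.Nonempty ∧ ∃ k, X = F k} ⊆ Set.range F := by
      rintro X ⟨-, k, rfl⟩
      exact ⟨k, rfl⟩
    exact (Set.countable_range F).mono this
  · rintro X ⟨-, k, rfl⟩ x hx y hy
    have hx' : code (s x) = k := hx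
    have hy' : code (s y) = k := hy
    have h1 : dist x y ≤ D / 2 := by
      rw [dist_pi_le_iff (by positivity)]
      intro i
      have h2 : (fun i => (⌊s x i⌋, ⌈s x i⌉)) = fun i => (⌊s y i⌋, ⌈s y i⌉) := by
        have := hx'.trans hy'.symm
        unfold code at this
        exact (Prod.mk.injEq _ _ _ _).mp this |>.1
      have h3 : ⌊s x i⌋ = ⌊s y i⌋ := congrArg Prod.fst (congrFun h2 i)
      have h4 := Int.floor_le (s x i)
      have h5 := Int.lt_floor_add_one (s x i)
      have h6 := Int.floor_le (s y i)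
      have h7 := Int.lt_floor_add_one (s y i)
      rw [h3] at h4 h5
      have h8 : |s x i - s y i| < 1 := by
        rw [abs_lt]; constructor <;> linarith
      have h9 : s x i - s y i = (x i - y i) / (D / 2) := by
        simp only [s]; ring
      rw [h9, abs_div, abs_of_pos (show 0 < D / 2 by positivity), div_lt_one (by positivity)] at h8
      rw [Real.dist_eq]
      exact h8.le
    linarith
  · intro p
    set c : Fin d → ℤ × ℤ := fun i => (⌊s p i⌋, ⌈s p i⌉) with hc
    set h : ℝ := ∑ i, w (s p i) with hh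
    have hsub : {X ∈ {X : Set (Fin d → ℝ) | X.Nonempty ∧ ∃ k, X = F k} | p ∈ closure X} ⊆
        {F (c, ⌊h⌋), F (c, ⌈h⌉ - 1)} := by
      rintro X ⟨⟨-, k, rfl⟩, hp⟩
      have h1 : s p ∈ closure {x | code x = k} := by
        refine map_mem_closure hs hp ?_
        intro x hx
        exact hx
      obtain ⟨h2, h3, h4⟩ := closure_fibre k (s p) h1
      obtain ⟨c', j⟩ := k
      have h5 : c' = c := h2.symm
      subst h5
      simp only at h3 h4
      rw [Set.mem_insert_iff, Set.mem_singleton_iff]
      have h6 : j ≤ ⌊h⌋ := Int.le_floor.mpr h3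
      have h7 : ⌈h⌉ ≤ j + 1 := by
        rw [Int.ceil_le]; push_cast; exact h4
      have h8 : ⌊h⌋ ≤ ⌈h⌉ := Int.floor_le_ceil h
      rcases h6.lt_or_eq with h9 | h9
      · right
        have : j = ⌈h⌉ - 1 := by omega
        rw [this]
      · left
        rw [h9]
    refine (Set.encard_le_encard hsub).trans ?_
    exact (Set.encard_insert_le _ _).trans (by rw [Set.encard_singleton]; norm_num)

/-! ### The lower bound -/

/-- In dimension at least one some point lies in the closures of two members. -/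
theorem holds_two (d : ℕ) (hd : 1 ≤ d) : Holds d 2 := by
  classical
  intro P D α hP hD hbd hcount
  by_contra hcon
  push Not at hcon
  -- two members with a common closure point are equal
  have huniq : ∀ X ∈ P, ∀ Y ∈ P, ∀ p, p ∈ closure X → p ∈ closure Y → X = Y := by
    intro X hX Y hY p hpX hpY
    have h1 := hcon p
    by_contra hne
    have h2 : ({X, Y} : Set (Set (Fin d → ℝ))) ⊆ {X ∈ P | p ∈ closure X} := by
      intro Z hZ
      rcases hZ with rfl | hZ
      · exact ⟨hX, hpX⟩
      · rw [Set.mem_singleton_iff] at hZ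
        subst hZ
        exact ⟨hY, hpY⟩
    have h3 := Set.encard_le_encard h2
    rw [Set.encard_pair hne] at h3
    exact absurd (lt_of_le_of_lt h3 h1) (lt_irrefl _)
  let i0 : Fin d := ⟨0, hd⟩
  -- a path in the cube
  let γ : ℝ → (Fin d → ℝ) := fun t i => α i + if i = i0 then max 0 (min t D) else 0
  have hγ : Continuous γ := by
    refine continuous_pi fun i => ?_
    by_cases hi : i = i0
    · simp only [γ, if_pos hi]; fun_prop
    · simp only [γ, if_neg hi]; fun_prop
  have hγc : ∀ t, γ t ∈ Set.Icc α (fun i => α i + D) := by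
    intro t
    constructor
    · intro i
      by_cases hi : i = i0
      · simp only [γ, if_pos hi]
        linarith [le_max_left 0 (min t D)]
      · simp only [γ, if_neg hi]; linarith
    · intro i
      by_cases hi : i = i0
      · simp only [γ, if_pos hi]
        have : max 0 (min t D) ≤ D := max_le hD.le (min_le_right _ _)
        linarith
      · simp only [γ, if_neg hi]; linarith
  let ι := {X ∈ P | (X ∩ Set.Icc α (fun i => α i + D)).Nonempty}
  have : Countable ι := hcount.to_subtype
  obtain ⟨X, hX⟩ := Q177.Sierpinski.exists_eq_univ (ι := ι) (fun X => γ ⁻¹' closure X.1)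
    (fun X => isClosed_closure.preimage hγ)
    (fun X Y t h1 h2 => Subtype.ext (huniq X.1 X.2.1 Y.1 Y.2.1 (γ t) h1 h2)) (by
      intro t
      obtain ⟨X, ⟨hX1, hX2⟩, -⟩ := hP.2 (γ t)
      exact ⟨⟨X, hX1, ⟨γ t, hX2, hγc t⟩⟩, subset_closure hX2⟩)
  -- the endpoints lie in `X`
  have hmem : ∀ t, γ t ∈ X.1 := by
    intro t
    have h1 : γ t ∈ closure X.1 := by
      have : t ∈ γ ⁻¹' closure X.1 := by
        rw [hX]; exact mem_univ t
      exact this
    obtain ⟨Y, ⟨hY1, hY2⟩, -⟩ := hP.2 (γ t)
    have h2 := huniq X.1 X.2.1 Y hY1 (γ t) h1 (subset_closure hY2)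
    rw [h2]; exact hY2
  have h1 := hbd X.1 X.2.1 _ (hmem 0) _ (hmem D)
  have h2 : dist (γ 0 i0) (γ D i0) ≤ dist (γ 0) (γ D) := dist_le_pi_dist _ _ _
  have h3 : dist (γ 0 i0) (γ D i0) = D := by
    simp only [γ, if_true, Real.dist_eq]
    rw [min_eq_left hD.le, min_self, max_self, max_eq_right hD.le]
    rw [abs_sub_comm]
    simp [abs_of_pos hD]
  linarith

/-- **Answer to the question: it fails in every dimension `d ≥ 2`, and the correct number in place
of `d + 1` is `2` in every dimension `d ≥ 1`.** Moreover the partition showing this may be taken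
countable. -/
theorem result :
    (∀ d : ℕ, 2 ≤ d → ¬ Holds d (d + 1)) ∧
    (∀ d k : ℕ, 1 ≤ d → (Holds d k ↔ k ≤ 2)) ∧
    ∀ (d : ℕ) (D : ℝ), 0 < D →
      ∃ P : Set (Set (Fin d → ℝ)), Setoid.IsPartition P ∧ P.Countable ∧
        (∀ X ∈ P, ∀ x ∈ X, ∀ y ∈ X, dist x y < D) ∧
        ∀ p : Fin d → ℝ, {X ∈ P | p ∈ closure X}.encard ≤ 2 := by
  have key : ∀ d k : ℕ, 1 ≤ d → (Holds d k ↔ k ≤ 2) := by
    intro d k hd
    constructor
    · intro h
      obtain ⟨P, h1, h2, h3, h4⟩ := exists_partition d 1 one_pos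
      obtain ⟨p, hp⟩ := h P 1 0 h1 one_pos h3 (h2.mono (fun X hX => hX.1))
      have h5 := hp.trans (h4 p)
      exact_mod_cast h5
    · intro hk P D α hP hD hbd hcount
      obtain ⟨p, hp⟩ := holds_two d hd P D α hP hD hbd hcount
      refine ⟨p, le_trans ?_ hp⟩
      exact_mod_cast hk
  refine ⟨?_, key, exists_partition⟩
  intro d hd h
  have := (key d (d + 1) (by omega)).mp h
  omega

end Pool.Agent.Results.MP_671186_gt.TwoClosures
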